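import Pool.Agent.Helper70_Kotzig.FamiliesB
import Pool.Agent.Helper70_Kotzig.Small

open Pool.Agent.Helper70_Kotzig

/-- **Kotzig's problem on Eulerian P-quasigroups.**  For `n ≥ 2` there is a P-quasigroup of order
`n` whose associated partition of the edges of `K_n` is one single closed walk if and only if `n`
is odd and `n ≠ 5`. -/
theorem Pool.Agent.Results.MP_42ae20_co.EulerianPQuasigroups.result (n : ℕ) (hn : 2 ≤ n) :
    (∃ op : Fin n → Fin n → Fin n, IsPGroupoid op ∧ IsQuasigroup op ∧ IsEulerian op) ↔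
      Odd n ∧ n ≠ 5 := by
  constructor
  · rintro ⟨op, h1, h2, h3⟩
    refine ⟨odd_of_isPGroupoid (by omega) op h1, ?_⟩
    rintro rfl
    exact no_order5 op h1 h2 h3
  · rintro ⟨hodd, hn5⟩
    obtain ⟨k, rfl⟩ := hodd
    have hk : k % 4 = 0 ∨ k % 4 = 1 ∨ k % 4 = 2 ∨ k % 4 = 3 := by omega
    rcases hk with hk | hk | hk | hk
    · obtain ⟨u, rfl⟩ : ∃ u, k = 4 * u := ⟨k / 4, by omega⟩
      rcases lt_or_ge u 2 with h | h
      · obtain rfl : u = 1 := by omega
        exact order9
      · exact family1 u h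
    · obtain ⟨u, rfl⟩ : ∃ u, k = 4 * u + 1 := ⟨k / 4, by omega⟩
      rcases lt_or_ge u 2 with h | h
      · interval_cases u
        · exact order3
        · exact order11
      · exact family3 u h
    · obtain ⟨u, rfl⟩ : ∃ u, k = 4 * u + 2 := ⟨k / 4, by omega⟩
      exact family5 u (by omega)
    · obtain ⟨u, rfl⟩ : ∃ u, k = 4 * u + 3 := ⟨k / 4, by omega⟩
      rcases lt_or_ge u 1 with h | h
      · obtain rfl : u = 0 := by omega
        exact order7
      · exact family7 u h
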